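import Mathlib
import Pool.Agent.Helper18.EW.Goals2
import Pool.Agent.Helper43.Hw.Main

/-! # Packet Z8 (EW): few points become old in the zone -/

set_option autoImplicit false

namespace Pool.Agent.Helper79.EW

open Finset
open Pool.Agent.Helper18.EW
open Pool.Agent.Helper43.Hw (T T_mono T_zero na va lz Play aa ac sc oo sk U Dd Sd Pn nx bb np)
open Pool.Agent.Helper43.Gm (Pri st)

theorem goalZ8 (h3 : GoalE3) : GoalZ8 := by
  intro μ R N K b β s W L o k D S n κ x y z hμ hR hX hP hE hy2 hsz hz hf
  obtain ⟨g1, g2, g3, g4, g5, g6, _⟩ := Pool.Agent.Helper43.Hw.PkH1.goalH1 μ R N κ x hμ hR hP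
  obtain ⟨hyR, hκN, hex⟩ := hE
  have hJs := hX.Js
  have hsy : s ≤ y := hsz.trans hz
  have h3' := (h3 μ R N κ x y hμ hR hP hyR hκN (by omega)).1
  have hzR' : z < R := by omega
  have hmono : κ z ≤ κ y := by
    have := (g1 (κ y) y hyR).1.1 le_rfl
    exact (g1 (κ y) z hzR').1.2 (lt_of_le_of_lt hz this)
  have htot := hX.tot y hsy hyR
  have hdth := hX.dth z y hsz hz hyR
  have hDn := hX.Dn y hsy hyR
  have hsum : ∑ t ∈ range y, lz μ R N κ x t = ∑ t ∈ range y, L t :=
    Finset.sum_congr rfl fun t ht => hex t (Finset.mem_range.1 ht).le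
  have hly := hex y le_rfl
  rw [hsum, hly] at h3'
  set w := R - 1 - y with hw
  set X := R - 1 - z with hX'
  have hwX : w ≤ X := by omega
  let De : Finset ℕ := (range (κ y)).filter
    (fun c => ac R κ x c + w ≤ R - 1 - μ ∧ R - 1 - μ < ac R κ x c + X)
  have hsub : (range (κ z)).filter (fun c => 0 < va μ R κ x c z) ∪ Ico (κ z) (κ y) ⊆
      (range (κ y)).filter (fun c => 0 < va μ R κ x c y) ∪ De := by
    intro c hc
    have hc' : c < κ y ∧ z < ac R κ x c + μ := by
      rw [mem_union, mem_filter, mem_range, mem_Ico] at hc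
      rcases hc with ⟨hc1, hc2⟩ | ⟨hc1, hc2⟩
      · exact ⟨by omega, (g6 z hzR' c hc1).2.2.2.1 hc2⟩
      · refine ⟨hc2, ?_⟩
        by_cases hzc : z < ac R κ x c
        · omega
        · have e1 : z < sc R κ c := (g1 c z hzR').1.1 hc1
          have e2 : ac R κ x c < sc R κ c := by omega
          have e3 : ac R κ x c < R := by omega
          have e4 := (g2 c (ac R κ x c) e3).2 ⟨le_rfl, e2⟩
          have e5 : sc R κ c ≤ y := (g6 y hyR c hc2).2.1
          have e6 := (g5 c (ac R κ x c) le_rfl e2).1 (by omega)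
          have e7 := e4.2
          omega
    obtain ⟨hcy, hkey⟩ := hc'
    rw [mem_union]
    by_cases hal : y < ac R κ x c + μ
    · left
      rw [mem_filter, mem_range]
      exact ⟨hcy, (g6 y hyR c hcy).2.2.2.2 hal⟩
    · right
      rw [mem_filter, mem_range]
      exact ⟨hcy, by omega, by omega⟩
  have hcard : oo μ R κ x z + (κ y - κ z) ≤ oo μ R κ x y + De.card := by
    have e1 := card_le_card hsub
    have e2 := card_union_le ((range (κ y)).filter (fun c => 0 < va μ R κ x c y)) De
    have e3 : Disjoint ((range (κ z)).filter (fun c => 0 < va μ R κ x c z))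
        (Ico (κ z) (κ y)) := by
      rw [disjoint_left]
      intro c hc hc'
      rw [mem_filter, mem_range] at hc
      rw [mem_Ico] at hc'
      omega
    rw [card_union_of_disjoint e3, Nat.card_Ico] at e1
    exact e1.trans e2
  have hnp : De.card + np μ R N κ x w ≤ np μ R N κ x X := by
    unfold np
    have e3 : Disjoint De ((range N).filter
        (fun c => R - 1 - μ < ac R κ x c + w ∧ ac R κ x c ≤ R - 1 - μ)) := by
      rw [disjoint_left]
      intro c hc hc'
      rw [mem_filter, mem_range] at hc hc'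
      omega
    rw [← card_union_of_disjoint e3]
    refine card_le_card ?_
    intro c hc
    rw [mem_union, mem_filter, mem_filter, mem_range, mem_range] at hc
    rw [mem_filter, mem_range]
    omega
  have hDd : Dd μ R κ x y ≤ T w * np μ R N κ x w := by
    unfold Dd np
    calc ∑ c ∈ (range (κ y)).filter (fun c => 0 < va μ R κ x c y), T (R - 1 - μ - ac R κ x c)
        ≤ ∑ c ∈ (range (κ y)).filter (fun c => 0 < va μ R κ x c y),
          (if R - 1 - μ < ac R κ x c + w ∧ ac R κ x c ≤ R - 1 - μ then T w else 0) := by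
          refine sum_le_sum fun c hc => ?_
          rw [mem_filter, mem_range] at hc
          have e1 := (g6 y hyR c hc.1).2.2.2.1 hc.2
          split_ifs with h
          · exact T_mono (by omega)
          · have : R - 1 - μ - ac R κ x c = 0 := by omega
            rw [this, T_zero]
      _ ≤ ∑ c ∈ range N,
          (if R - 1 - μ < ac R κ x c + w ∧ ac R κ x c ≤ R - 1 - μ then T w else 0) := by
          refine sum_le_sum_of_subset ?_
          intro c hc
          rw [mem_filter, mem_range] at hc
          rw [mem_range]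
          omega
      _ = T w * ((range N).filter
          (fun c => R - 1 - μ < ac R κ x c + w ∧ ac R κ x c ≤ R - 1 - μ)).card := by
          rw [← sum_filter, sum_const, smul_eq_mul, mul_comm]
  have e0 : (N - κ y) + 2 * (κ y - κ z) + n w + np μ R N κ x w ≤
      β + o y + oo μ R κ x y + n X + np μ R N κ x X := by omega
  have e1 : (((N - κ y : ℕ) : ℤ)) + 2 * ((κ y - κ z : ℕ) : ℤ) + n w + np μ R N κ x w ≤
      β + o y + oo μ R κ x y + n X + np μ R N κ x X := by
    exact_mod_cast e0
  have e2 : (0 : ℤ) ≤ (T w : ℤ) := Int.natCast_nonneg _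
  have e4 : (Dd μ R κ x y : ℤ) ≤ (T w : ℤ) * (np μ R N κ x w : ℤ) := by exact_mod_cast hDd
  have e4' : (D y : ℤ) ≤ (T w : ℤ) * (n w : ℤ) := by exact_mod_cast hDn
  have e5 := mul_le_mul_of_nonneg_left e1 e2
  have e6 : ((oo μ R κ x y * T w + N * T μ : ℕ) : ℤ) ≤
      ((Dd μ R κ x y + (N - κ y) * T w + ∑ t ∈ range y, L t + (R - y) * L y : ℕ) : ℤ) := by
    exact_mod_cast h3'
  have e7 : (0 : ℤ) ≤ (S y : ℤ) := Int.natCast_nonneg _
  push_cast at e6
  nlinarith

end Pool.Agent.Helper79.EW
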